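import Pool.Agent.Lib.MP_e1e491_gt.CC.Main

/-! The boundary of a hyperbolic group that is homeomorphic to the two dimensional sphere is
quasisymmetric to the round sphere. -/

open scoped NNReal

namespace Pool.Agent.Lib.MP_e1e491_gt.Old.Sphere

/-- `f` is quasisymmetric for the round (angle) metric of the unit sphere. -/
def RoundQS {Z : Type} [MetricSpace Z]
    (f : Z → Metric.sphere (0 : EuclideanSpace ℝ (Fin 3)) 1) : Prop :=
  ∃ η : ℝ≥0 ≃ₜ ℝ≥0, ∀ x y z : Z, z ≠ x →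
    InnerProductGeometry.angle (f x).1 (f y).1 / InnerProductGeometry.angle (f x).1 (f z).1 ≤
      (η (nndist x y / nndist x z) : ℝ)

theorem result (G : Type) [Group G] (S : Finset G) (hS : Subgroup.closure (S : Set G) = ⊤)
    (hyp : KKC.Hyperbolic S) [MetricSpace (KKC.Bdry S)] (hv : KKC.IsVisual S)
    (hc : Nonempty (KKC.Bdry S ≃ₜ Metric.sphere (0 : EuclideanSpace ℝ (Fin 3)) 1)) :
    ∃ f : KKC.Bdry S ≃ₜ Metric.sphere (0 : EuclideanSpace ℝ (Fin 3)) 1, RoundQS f := by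
  obtain ⟨e⟩ := hc
  obtain ⟨_, -, ⟨H⟩⟩ := KKC.exists_all_sph S hS hyp hv e
  obtain ⟨f, η, -, h⟩ := KCC.sphere_qs_homeo H e
  exact ⟨f, η, h⟩

end Pool.Agent.Lib.MP_e1e491_gt.Old.Sphere
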